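import Mathlib
import Pool.Agent.Lib.MP_fe8cb7_co.h25.Defs

set_option autoImplicit false

/-!
# Daykin-Haggkvist problem: no `α > 1/4` is admissible
-/

open Finset

namespace DH

namespace Up

/-- the sign of a class -/
def sg (b : Bool) : ℤ := if b then 1 else -1

lemma sum_sg {n h : ℕ} [NeZero h] (e : Fin n ≃ Bool × ZMod h) : ∑ i : Fin n, sg (e i).1 = 0 := by
  rw [Equiv.sum_comp e (fun x : Bool × ZMod h => sg x.1), Fintype.sum_prod_type]
  simp [sg]

lemma sum_sg_comp {n h : ℕ} [NeZero h] (e : Fin n ≃ Bool × ZMod h) (φ : Fin n → Fin n)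
    (hφ : Function.Injective φ) : ∑ i : Fin n, sg (e (φ i)).1 = 0 := by
  have hb : Function.Bijective φ := Finite.injective_iff_bijective.mp hφ
  have := Equiv.sum_comp (Equiv.ofBijective φ hb) (fun i : Fin n => sg (e i).1)
  simp only [Equiv.ofBijective_apply] at this
  rw [this]
  exact sum_sg e

/-- in a Latin square of order `n = 2h` the number of cells whose row, column and symbol are in the
same half is `n^2/4` -/
lemma count_same {n h : ℕ} [NeZero h] (e : Fin n ≃ Bool × ZMod h) (g : Fin n → Fin n → Fin n)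
    (h1 : ∀ i, Function.Injective (g i)) (h2 : ∀ j, Function.Injective (fun i => g i j)) :
    4 * (((univ : Finset (Fin n × Fin n)).filter (fun p => (e p.1).1 = (e p.2).1 ∧
      (e p.1).1 = (e (g p.1 p.2)).1)).card : ℤ) = (n : ℤ) ^ 2 := by
  classical
  have key : ∀ a b c : Bool, 4 * (if a = b ∧ a = c then (1 : ℤ) else 0) =
      1 + sg a * sg b + sg b * sg c + sg a * sg c := by
    intro a b c
    cases a <;> cases b <;> cases c <;> simp [sg]
  rw [Finset.card_filter]
  push_cast
  rw [Finset.mul_sum]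
  have : ∀ p : Fin n × Fin n, 4 * (if (e p.1).1 = (e p.2).1 ∧ (e p.1).1 = (e (g p.1 p.2)).1
      then (1 : ℤ) else 0) = 1 + sg (e p.1).1 * sg (e p.2).1 +
        sg (e p.2).1 * sg (e (g p.1 p.2)).1 + sg (e p.1).1 * sg (e (g p.1 p.2)).1 :=
    fun p => key _ _ _
  rw [Finset.sum_congr rfl (fun p _ => this p)]
  rw [Finset.sum_add_distrib, Finset.sum_add_distrib, Finset.sum_add_distrib]
  have s1 : ∑ p : Fin n × Fin n, sg (e p.1).1 * sg (e p.2).1 = 0 := by
    rw [Fintype.sum_prod_type]
    simp only [← Finset.mul_sum, sum_sg e, mul_zero, Finset.sum_const_zero]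
  have s2 : ∑ p : Fin n × Fin n, sg (e p.2).1 * sg (e (g p.1 p.2)).1 = 0 := by
    rw [Fintype.sum_prod_type_right]
    simp only
    have : ∀ j : Fin n, ∑ i : Fin n, sg (e j).1 * sg (e (g i j)).1 = 0 := by
      intro j
      rw [← Finset.mul_sum, sum_sg_comp e (fun i => g i j) (h2 j), mul_zero]
    simp [this]
  have s3 : ∑ p : Fin n × Fin n, sg (e p.1).1 * sg (e (g p.1 p.2)).1 = 0 := by
    rw [Fintype.sum_prod_type]
    simp only
    have : ∀ i : Fin n, ∑ j : Fin n, sg (e i).1 * sg (e (g i j)).1 = 0 := by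
      intro i
      rw [← Finset.mul_sum, sum_sg_comp e (fun j => g i j) (h1 i), mul_zero]
    simp [this]
  rw [s1, s2, s3]
  simp [sq]

/-- the precolouring -/
noncomputable def pre {n h : ℕ} (e : Fin n ≃ Bool × ZMod h) (K : Finset (ZMod h))
    (i j : Fin n) : Option (Fin n) :=
  open Classical in
  if (e i).1 = (e j).1 ∧ (e i).2 + 2 * (e j).2 ∈ K then some (e.symm ((e i).1, (e i).2 + (e j).2))
  else none

lemma pre_some {n h : ℕ} (e : Fin n ≃ Bool × ZMod h) (K : Finset (ZMod h)) (i j s : Fin n) :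
    pre e K i j = some s ↔ (e i).1 = (e j).1 ∧ (e i).2 + 2 * (e j).2 ∈ K ∧
      e s = ((e i).1, (e i).2 + (e j).2) := by
  unfold pre
  split_ifs with hc
  · simp only [Option.some.injEq]
    constructor
    · intro hs
      refine ⟨hc.1, hc.2, ?_⟩
      rw [← hs]; simp
    · rintro ⟨_, _, hs⟩
      rw [← hs]; simp
  · constructor
    · intro h; exact absurd h (by simp)
    · rintro ⟨a, b, _⟩
      exact absurd ⟨a, b⟩ hc

lemma pre_ne_none {n h : ℕ} (e : Fin n ≃ Bool × ZMod h) (K : Finset (ZMod h)) (i j : Fin n) :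
    pre e K i j ≠ none ↔ (e i).1 = (e j).1 ∧ (e i).2 + 2 * (e j).2 ∈ K := by
  unfold pre
  split_ifs with hc <;> simp [hc]

lemma pre_proper {n h : ℕ} (e : Fin n ≃ Bool × ZMod h) (K : Finset (ZMod h)) :
    ProperPre (pre e K) := by
  constructor
  · intro i j j' s h1 h2
    rw [pre_some] at h1 h2
    apply e.injective
    have := h1.2.2.symm.trans h2.2.2
    rw [Prod.mk.injEq] at this
    exact Prod.ext (h1.1.symm.trans h2.1) (add_left_cancel this.2)
  · intro i i' j s h1 h2
    rw [pre_some] at h1 h2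
    apply e.injective
    have := h1.2.2.symm.trans h2.2.2
    rw [Prod.mk.injEq] at this
    exact Prod.ext this.1 (add_right_cancel this.2)

lemma card_sym {n h : ℕ} (e : Fin n ≃ Bool × ZMod h) (K : Finset (ZMod h)) (s : Fin n) :
    ((univ : Finset (Fin n × Fin n)).filter (fun p => pre e K p.1 p.2 = some s)).card ≤ K.card := by
  apply Finset.card_le_card_of_injOn (fun p => (e p.1).2 + 2 * (e p.2).2)
  · intro p hp
    simp only [coe_filter, mem_univ, true_and, Set.mem_ofPred_eq, pre_some] at hp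
    exact hp.2.1
  · intro p hp q hq hpq
    simp only [coe_filter, mem_univ, true_and, Set.mem_ofPred_eq, pre_some] at hp hq
    have h1 := hp.2.2.symm.trans hq.2.2
    rw [Prod.mk.injEq] at h1
    simp only at hpq
    have h2 : (e p.2).2 = (e q.2).2 := by
      have h3 : (e p.1).2 + (e p.2).2 = (e q.1).2 + (e q.2).2 := h1.2
      have : (e p.2).2 = ((e p.1).2 + 2 * (e p.2).2) - ((e p.1).2 + (e p.2).2) := by ring
      rw [this, hpq, h3]; ring
    have h4 : (e p.1).2 = (e q.1).2 := by
      have h3 : (e p.1).2 + (e p.2).2 = (e q.1).2 + (e q.2).2 := h1.2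
      rw [h2] at h3
      exact add_right_cancel h3
    apply Prod.ext
    · exact e.injective (Prod.ext h1.1 h4)
    · exact e.injective (Prod.ext (hp.1.symm.trans (h1.1.trans hq.1)) h2)

lemma card_row {n h : ℕ} [NeZero h] (h2 : IsUnit (2 : ZMod h)) (e : Fin n ≃ Bool × ZMod h)
    (K : Finset (ZMod h)) (i : Fin n) :
    ((univ : Finset (Fin n)).filter (fun j => pre e K i j ≠ none)).card = K.card := by
  apply Finset.card_bij' (fun j _ => (e i).2 + 2 * (e j).2)
    (fun v _ => e.symm ((e i).1, h2.unit⁻¹ * (v - (e i).2)))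
  · intro j hj
    simp only [mem_filter, mem_univ, true_and, pre_ne_none] at hj
    exact hj.2
  · intro v hv
    simp only [mem_filter, mem_univ, true_and, pre_ne_none, Equiv.apply_symm_apply]
    have : (2 : ZMod h) * (↑h2.unit⁻¹ * (v - (e i).2)) = v - (e i).2 := by
      rw [← mul_assoc, IsUnit.mul_val_inv, one_mul]
    rw [this]; simpa using hv
  · intro j hj
    simp only [mem_filter, mem_univ, true_and, pre_ne_none] at hj
    apply e.injective
    rw [Equiv.apply_symm_apply]
    apply Prod.ext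
    · exact hj.1
    · simp only [add_sub_cancel_left]
      rw [← mul_assoc, IsUnit.val_inv_mul, one_mul]
  · intro v hv
    simp only [Equiv.apply_symm_apply]
    rw [← mul_assoc, IsUnit.mul_val_inv, one_mul]; ring

lemma card_col {n h : ℕ} (e : Fin n ≃ Bool × ZMod h)
    (K : Finset (ZMod h)) (j : Fin n) :
    ((univ : Finset (Fin n)).filter (fun i => pre e K i j ≠ none)).card ≤ K.card := by
  apply Finset.card_le_card_of_injOn (fun i => (e i).2 + 2 * (e j).2)
  · intro i hi
    simp only [coe_filter, mem_univ, true_and, Set.mem_ofPred_eq, pre_ne_none] at hi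
    exact hi.2
  · intro p hp q hq hpq
    simp only [coe_filter, mem_univ, true_and, Set.mem_ofPred_eq, pre_ne_none] at hp hq
    exact e.injective (Prod.ext (hp.1.trans hq.1.symm) (add_right_cancel hpq))

/-- the filled cells are cells with row, column and symbol in the same half -/
lemma filled_le {n h : ℕ} [NeZero h] (h2 : IsUnit (2 : ZMod h)) (e : Fin n ≃ Bool × ZMod h)
    (K : Finset (ZMod h)) (g : Fin n → Fin n → Fin n)
    (hg : ∀ i j s, pre e K i j = some s → g i j = s) :
    n * K.card ≤ ((univ : Finset (Fin n × Fin n)).filter (fun p => (e p.1).1 = (e p.2).1 ∧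
      (e p.1).1 = (e (g p.1 p.2)).1)).card := by
  classical
  have h3 : n * K.card = ((univ : Finset (Fin n × Fin n)).filter
      (fun p => pre e K p.1 p.2 ≠ none)).card := by
    rw [Finset.card_filter, Fintype.sum_prod_type]
    have : ∀ i : Fin n, ∑ j : Fin n, (if pre e K i j ≠ none then 1 else 0) = K.card := by
      intro i
      rw [← Finset.card_filter, card_row h2]
    simp only [this]
    simp
  rw [h3]
  apply Finset.card_le_card
  intro p hp
  simp only [mem_filter, mem_univ, true_and] at hp ⊢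
  obtain ⟨s, hs⟩ := Option.ne_none_iff_exists'.mp hp
  have hgs := hg _ _ _ hs
  rw [pre_some] at hs
  refine ⟨hs.1, ?_⟩
  rw [hgs, hs.2.2]

end Up

/-- no `α > 1/4` is admissible -/
theorem not_admissible (α : ℝ) (hα : 1 / 4 < α) : ¬ Admissible α := by
  rintro ⟨n0, hn0⟩
  obtain ⟨t, ht⟩ := exists_nat_ge (max (n0 : ℝ) (1 / (4 * α - 1)))
  have ht1 : (n0 : ℝ) ≤ t := le_trans (le_max_left _ _) ht
  have ht2 : 1 / (4 * α - 1) ≤ t := le_trans (le_max_right _ _) ht
  set h : ℕ := 2 * t + 1 with hh
  set n : ℕ := 2 * h with hn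
  have : NeZero h := ⟨by omega⟩
  have hn0n : n0 ≤ n := by
    have : n0 ≤ t := by exact_mod_cast ht1
    omega
  have hcard : Fintype.card (Fin n) = Fintype.card (Bool × ZMod h) := by
    rw [Fintype.card_fin, Fintype.card_prod, Fintype.card_bool, ZMod.card]
  let e : Fin n ≃ Bool × ZMod h := Fintype.equivOfCardEq hcard
  have hu : IsUnit (2 : ZMod h) := by
    have : IsUnit ((2 : ℕ) : ZMod h) := by
      rw [ZMod.isUnit_iff_coprime]
      rw [hh]
      rw [Nat.coprime_two_left]
      exact ⟨t, rfl⟩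
    simpa using this
  obtain ⟨K, hK⟩ : ∃ K : Finset (ZMod h), K.card = t + 1 := by
    obtain ⟨K, _, hK⟩ := Finset.exists_subset_card_eq (s := (univ : Finset (ZMod h))) (n := t + 1)
      (by rw [Finset.card_univ, ZMod.card]; omega)
    exact ⟨K, hK⟩
  have hpos : 0 < 4 * α - 1 := by linarith
  have hd : ((t + 1 : ℕ) : ℝ) ≤ α * (n : ℝ) := by
    have h1 : 1 ≤ (4 * α - 1) * t := by
      rw [div_le_iff₀ hpos] at ht2
      linarith
    have h2 : (n : ℝ) = 2 * (2 * t + 1) := by rw [hn, hh]; push_cast; ring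
    rw [h2]; push_cast
    nlinarith
  have hdense : DensePre α (Up.pre e K) := by
    refine ⟨?_, ?_, ?_⟩
    · intro s
      refine le_trans ?_ hd
      exact_mod_cast (hK ▸ Up.card_sym e K s)
    · intro i
      refine le_trans ?_ hd
      exact_mod_cast (hK ▸ (Up.card_row hu e K i).le)
    · intro j
      refine le_trans ?_ hd
      exact_mod_cast (hK ▸ Up.card_col e K j)
  obtain ⟨g, g1, g2, g3⟩ := hn0 n hn0n (Up.pre e K) (Up.pre_proper e K) hdense
  have c1 := Up.count_same e g g1 g2
  have c2 := Up.filled_le hu e K g g3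
  rw [hK] at c2
  have c3 : ((n * (t + 1) : ℕ) : ℤ) ≤ _ := Int.ofNat_le.mpr c2
  push_cast at c3
  have c4 : (n : ℤ) = 2 * (2 * t + 1) := by rw [hn, hh]; push_cast; ring
  rw [c4] at c1 c3
  nlinarith

end DH
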